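import Pool.Agent.X79.EC.Stm

/-!
# The assembly
-/

set_option autoImplicit false

namespace Pool.Agent.X79.EC

open Finset Polynomial

section

variable {V : Type} [Fintype V] [DecidableEq V] (G : SimpleGraph V) [DecidableRel G.Adj]

lemma coeff_pZ (j : ℕ) : (pZ G).coeff j = (((covs G).filter (fun S => S.card = j)).card : ℤ) := by
  unfold pZ
  rw [finsetSum_coeff]
  simp only [coeff_X_pow]
  rw [← Finset.sum_filter, Finset.sum_const, nsmul_eq_mul, mul_one]
  congr 2
  ext S
  simp only [mem_filter]
  constructor <;> rintro ⟨h1, h2⟩ <;> exact ⟨h1, h2.symm⟩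

lemma eval_pZ : (pZ G).eval 1 = ((covs G).card : ℤ) := by
  unfold pZ
  rw [eval_finsetSum]
  simp

variable {G}

lemma all_cov (h2 : ∀ v, 2 ≤ G.degree v) : G.edgeFinset ∈ covs G := by
  unfold covs
  rw [mem_filter, mem_powerset]
  refine ⟨Subset.refl _, fun v => ?_⟩
  have h3 : 0 < (G.neighborFinset v).card := by
    rw [SimpleGraph.card_neighborFinset_eq_degree]
    have := h2 v
    omega
  obtain ⟨w, hw⟩ := card_pos.1 h3
  rw [SimpleGraph.mem_neighborFinset] at hw
  exact ⟨s(v, w), by rw [SimpleGraph.mem_edgeFinset, SimpleGraph.mem_edgeSet]; exact hw,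
    Sym2.mem_mk_left v w⟩

lemma sub_of_covs {S : Finset (Sym2 V)} (hS : S ∈ covs G) : S ⊆ G.edgeFinset := by
  unfold covs at hS
  rw [mem_filter, mem_powerset] at hS
  exact hS.1

lemma top_coeff (h2 : ∀ v, 2 ≤ G.degree v) : (pZ G).coeff G.edgeFinset.card = 1 := by
  rw [coeff_pZ]
  have : (covs G).filter (fun S => S.card = G.edgeFinset.card) = {G.edgeFinset} := by
    ext S
    rw [mem_filter, mem_singleton]
    constructor
    · rintro ⟨h1, h3⟩
      exact eq_of_subset_of_card_le (sub_of_covs h1) h3.ge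
    · rintro rfl
      exact ⟨all_cov h2, rfl⟩
  rw [this]
  simp

lemma natDeg (h2 : ∀ v, 2 ≤ G.degree v) : (pZ G).natDegree = G.edgeFinset.card := by
  refine le_antisymm ?_ ?_
  · rw [natDegree_le_iff_coeff_eq_zero]
    intro N hN
    rw [coeff_pZ]
    have : (covs G).filter (fun S => S.card = N) = ∅ := by
      rw [filter_eq_empty_iff]
      intro S hS h3
      have := card_le_card (sub_of_covs hS)
      omega
    rw [this]
    simp
  · refine le_natDegree_of_ne_zero ?_
    rw [top_coeff h2]
    exact one_ne_zero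

lemma monic (h2 : ∀ v, 2 ≤ G.degree v) : (pZ G).Monic := by
  unfold Monic leadingCoeff
  rw [natDeg h2, top_coeff h2]

lemma coeff_zero [Nonempty V] : (pZ G).coeff 0 = 0 := by
  rw [coeff_pZ]
  have : (covs G).filter (fun S => S.card = 0) = ∅ := by
    rw [filter_eq_empty_iff]
    intro S hS h3
    rw [card_eq_zero] at h3
    subst h3
    unfold covs at hS
    rw [mem_filter] at hS
    obtain ⟨e, he, -⟩ := hS.2 (Classical.arbitrary V)
    simp at he
  rw [this]
  simp

lemma edges_ge (h2 : ∀ v, 2 ≤ G.degree v) : Fintype.card V ≤ G.edgeFinset.card := by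
  have e2 : ∑ v : V, G.degree v = 2 * G.edgeFinset.card := G.sum_degrees_eq_twice_card_edges
  have e3 : ∑ _v : V, 2 ≤ ∑ v : V, G.degree v := sum_le_sum fun v _ => h2 v
  rw [sum_const, card_univ, smul_eq_mul] at e3
  omega

/-- **the assembly** -/
theorem main (hALG : S_ALG) (hCOF : S_COF) (hDEG : S_DEG) (hFIN : S_FIN) (hSTR : S_STR)
    (hG : G.Connected) (h2 : ∀ v, 2 ≤ G.degree v) (hn : 4 ≤ Fintype.card V)
    (hex : ∃ v, G.degree v = 2) :
    3 ≤ {z : ℂ | ((pZ G).map (Int.castRingHom ℂ)).eval z = 0}.encard := by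
  by_contra hcon
  rw [not_le] at hcon
  have hle : {z : ℂ | ((pZ G).map (Int.castRingHom ℂ)).eval z = 0}.encard ≤ 2 := by
    have h3 : (3 : ℕ∞) = 2 + 1 := by norm_num
    rw [h3] at hcon
    exact Order.le_of_lt_add_one hcon
  have hne : Nonempty V := hG.nonempty
  have hm4 := edges_ge h2
  have hn2 : 0 < nd G 2 := by
    obtain ⟨v, hv⟩ := hex
    exact card_pos.2 ⟨v, by rw [mem_filter]; exact ⟨mem_univ _, hv⟩⟩
  have hn2' : nd G 2 ≤ Fintype.card V := by
    unfold nd
    exact (card_filter_le _ _).trans (by rw [card_univ])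
  obtain ⟨c1, c2, c3⟩ := hCOF V G hG h2 hn
  obtain ⟨a, ρ, k, hp, hρ, hmk, hma, h3⟩ := hALG (pZ G) G.edgeFinset.card (nd G 2)
    ((m22 G : ℤ) - nd G 3) (monic h2) (natDeg h2) (by omega) coeff_zero hn2 c1 c2 c3 hle
  have ha1 : 1 ≤ a := by
    rcases Nat.eq_zero_or_pos a with h | h
    · rw [h] at hma
      omega
    · exact h
  have ha2 : a ≤ 2 := by
    by_contra hlt
    have : G.edgeFinset.card * 3 ≤ G.edgeFinset.card * a := Nat.mul_le_mul_left _ (by omega)
    omega
  have hdeg := hDEG V G h2
  have hcases : a = 1 ∨ a = 2 := by omega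
  rcases hcases with rfl | rfl
  · -- `a = 1`
    have hm : G.edgeFinset.card = 2 * nd G 2 := by omega
    have e22 : m22 G = nd G 3 := by
      push_cast at h3
      omega
    have ehh : mhh G = nd G 3 := by omega
    have hk : k = nd G 2 := by omega
    have hρ' : ρ = nd G 2 := by omega
    subst hk
    rw [hρ'] at hp
    have hcov : ∀ S ∈ covs G, nd G 2 ≤ S.card := by
      intro S hS
      by_contra hlt
      have h4 : (pZ G).coeff S.card = 0 := by
        rw [hp, coeff_X_pow_mul', if_neg hlt]
      rw [coeff_pZ] at h4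
      have h5 : S ∈ (covs G).filter (fun T => T.card = S.card) := mem_filter.2 ⟨hS, rfl⟩
      have h6 := card_pos.2 ⟨S, h5⟩
      omega
    have hstr := hSTR V G hG h2 hn hm e22 ehh hcov
    have hfin := hFIN V G hstr
    have h7 : ((covs G).card : ℤ) = 3 ^ nd G 2 := by
      rw [← eval_pZ, hp]
      simp
    have h8 : (covs G).card = 3 ^ nd G 2 := by exact_mod_cast h7
    omega
  · -- `a = 2`
    have hm : G.edgeFinset.card = nd G 2 := by omega
    have hall : ∀ v, G.degree v = 2 := by
      have h4 : univ.filter (fun v : V => G.degree v = 2) = univ := by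
        apply eq_of_subset_of_card_le (subset_univ _)
        rw [card_univ]
        show Fintype.card V ≤ nd G 2
        omega
      intro v
      have h5 := mem_univ v
      rw [← h4, mem_filter] at h5
      exact h5.2
    have e3 : nd G 3 = 0 := by
      unfold nd
      rw [card_eq_zero, filter_eq_empty_iff]
      intro v _ h
      rw [hall v] at h
      omega
    have e22 : m22 G = G.edgeFinset.card := by
      unfold m22
      rw [filter_true_of_mem]
      intro e _ v _
      exact hall v
    rw [e22, e3, hm] at h3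
    push_cast at h3
    omega

end

end Pool.Agent.X79.EC
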