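import Mathlib

/-!
# MP_2a9600_co: a connected graph with minimum degree 2, not the triangle, has an edge cover
polynomial with at least three distinct roots. Statements of the parts (helper79).

`pZ G` is the edge cover polynomial, `m` the number of edges, `n2`, `n3` the number of vertices of
degree 2 and 3, `m22` the number of edges joining two vertices of degree 2, `mhh` the number of edges
joining two vertices of degree at least 3.
-/

set_option autoImplicit false

namespace Pool.Agent.X79.EC

open Finset Polynomial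

section

variable {V : Type} [Fintype V] [DecidableEq V] (G : SimpleGraph V) [DecidableRel G.Adj]

/-- the edge covers -/
def covs : Finset (Finset (Sym2 V)) :=
  G.edgeFinset.powerset.filter (fun S => ∀ v : V, ∃ e ∈ S, v ∈ e)

/-- the edge cover polynomial with integer coefficients -/
noncomputable def pZ : ℤ[X] := ∑ S ∈ covs G, X ^ S.card

/-- the number of vertices of degree `d` -/
def nd (d : ℕ) : ℕ := (univ.filter (fun v : V => G.degree v = d)).card

/-- the number of edges joining two vertices of degree 2 -/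
def m22 : ℕ := (G.edgeFinset.filter (fun e => ∀ v ∈ e, G.degree v = 2)).card

/-- the number of edges joining two vertices of degree at least 3 -/
def mhh : ℕ := (G.edgeFinset.filter (fun e => ∀ v ∈ e, 3 ≤ G.degree v)).card

end

/-- IE: inclusion and exclusion, any graph. `E(G, y - 1) = ∑_W (-1)^|W| y^(edges avoiding W)`. -/
def S_IE : Prop := ∀ (V : Type) [Fintype V] [DecidableEq V] (G : SimpleGraph V)
  [DecidableRel G.Adj], (pZ G).comp (X - 1) =
    ∑ W : Finset V, C ((-1 : ℤ) ^ W.card) * X ^ (G.edgeFinset.filter (fun e => ∀ v ∈ e, v ∉ W)).card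

/-- COF (from IE): the leading coefficients. With `t(W)` = number of edges touching `W`, the
coefficient of `y^(m-j)` is `∑ (-1)^|W|` over `W` with `t(W) = j`. `2 t(W) ≥ ∑_{v ∈ W} deg v`, with
`>` if `W ≠ ∅, univ` (connected). So `t(W) ≤ 3` only for `∅`, `{v}` with `deg v ≤ 3` and `{v, w}`
adjacent of degree 2. -/
def S_COF : Prop := ∀ (V : Type) [Fintype V] [DecidableEq V] (G : SimpleGraph V)
  [DecidableRel G.Adj], G.Connected → (∀ v, 2 ≤ G.degree v) → 4 ≤ Fintype.card V →
    ((pZ G).comp (X - 1)).coeff (G.edgeFinset.card - 1) = 0 ∧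
    ((pZ G).comp (X - 1)).coeff (G.edgeFinset.card - 2) = -(nd G 2 : ℤ) ∧
    ((pZ G).comp (X - 1)).coeff (G.edgeFinset.card - 3) = (m22 G : ℤ) - nd G 3

/-- ALG: pure algebra. Over `ℂ`, `p = X^ρ (X + c)^k`, `a = c - 1`, `q(y) = p(y - 1) =
(y - 1)^ρ (y + a)^k`; the three coefficients give `ρ = k a`, `m a = 2 n₂`, `3 a₃ = 2 n₂ (a - 1)`
(from `q' (y-1) (y+a) = q (ρ (y+a) + k (y-1))`, comparing the coefficients of `y^m`, `y^(m-1)`,
`y^(m-2)`); `c` is rational and a root of `p`, so an integer. -/
def S_ALG : Prop := ∀ (p : ℤ[X]) (m n₂ : ℕ) (a₃ : ℤ), p.Monic → p.natDegree = m → 3 ≤ m →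
  p.coeff 0 = 0 → 0 < n₂ → (p.comp (X - 1)).coeff (m - 1) = 0 →
  (p.comp (X - 1)).coeff (m - 2) = -(n₂ : ℤ) → (p.comp (X - 1)).coeff (m - 3) = a₃ →
  {z : ℂ | (p.map (Int.castRingHom ℂ)).eval z = 0}.encard ≤ 2 →
  ∃ a ρ k : ℕ, p = X ^ ρ * (X + C ((a : ℤ) + 1)) ^ k ∧ ρ = k * a ∧ m = ρ + k ∧
    m * a = 2 * n₂ ∧ 3 * a₃ = 2 * n₂ * ((a : ℤ) - 1)

/-- DEG: counting edges by the degrees of the ends. (`2 n2 = 2 m22 + m2h`, `m = m22 + m2h + mhh`.) -/
def S_DEG : Prop := ∀ (V : Type) [Fintype V] [DecidableEq V] (G : SimpleGraph V)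
  [DecidableRel G.Adj], (∀ v, 2 ≤ G.degree v) → G.edgeFinset.card + m22 G = 2 * nd G 2 + mhh G

/-- TB: a graph with minimum degree 2 without odd cycle components has an edge cover with at most
`m / 2` edges. (Use `H168DD.tutte_berge` from `Pool/Agent/H168DD/TB.lean` with `T = univ` and
`l = m - n` if `m` is even, `l = m - n - 1` if `m` is odd. For a family `F` of disjoint odd sets closed
outside `A`, the numbers of edges touching the sets are at least `|O| + 1` (degree sum; equality
`|O|` only if `O` is closed with all degrees 2), and at least `|R|` for the rest `R`, so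
`|F| ≤ |A| + m - n`; if `m` is odd and equality holds, then `R` is odd and `F ∪ {R}` gives a
contradiction. The cover: the matching and one edge at each vertex of `U`.) -/
def S_TB : Prop := ∀ (V : Type) [Fintype V] [DecidableEq V] (G : SimpleGraph V)
  [DecidableRel G.Adj], (∀ v, 2 ≤ G.degree v) →
  (∀ O : Finset V, Odd O.card → (∀ x ∈ O, ∀ y, G.Adj x y → y ∈ O) → ∃ x ∈ O, G.degree x ≠ 2) →
  ∃ S : Finset (Sym2 V), S ⊆ G.edgeFinset ∧ (∀ v : V, ∃ e ∈ S, v ∈ e) ∧
    2 * S.card ≤ G.edgeFinset.card

/-- the final structure -/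
structure Str {V : Type} [Fintype V] [DecidableEq V] (G : SimpleGraph V) [DecidableRel G.Adj] :
    Prop where
  deg2 : ∀ v, 2 ≤ G.degree v
  tri : ∀ u, G.degree u = 3 → ∃ a b v, a ≠ b ∧ G.Adj u a ∧ G.Adj u b ∧ G.Adj u v ∧ G.Adj a b ∧
    G.degree a = 2 ∧ G.degree b = 2 ∧ 4 ≤ G.degree v
  low : ∀ a b, G.Adj a b → G.degree a = 2 → G.degree b = 2 →
    ∃ u, G.degree u = 3 ∧ G.Adj u a ∧ G.Adj u b
  high : ∀ u v, G.Adj u v → 3 ≤ G.degree u → 3 ≤ G.degree v → G.degree u = 3 ∨ G.degree v = 3
  ex : ∃ v, 4 ≤ G.degree v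

/-- FIN: in the final structure there are less than `3 ^ n2` edge covers. The blocks of edges are the
four edges touching the triangle `a, b, u` of a vertex `u` of degree 3 (9 of the 16 subsets cover
`a, b, u`), and the two edges at each vertex of degree 2 without neighbour of degree 2 (3 of the 4
subsets cover it); these blocks are a partition of the edges, a cover restricts to such subsets, so
there are at most `3 ^ n2` covers, and the sets of all edges except those at a vertex of degree at
least 4 restrict to such subsets and are not covers. -/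
def S_FIN : Prop := ∀ (V : Type) [Fintype V] [DecidableEq V] (G : SimpleGraph V)
  [DecidableRel G.Adj], Str G → (covs G).card < 3 ^ nd G 2

/-- STR (from TB): the structure of the exceptional graphs (helper79). -/
def S_STR : Prop := ∀ (V : Type) [Fintype V] [DecidableEq V] (G : SimpleGraph V)
  [DecidableRel G.Adj], G.Connected → (∀ v, 2 ≤ G.degree v) → 4 ≤ Fintype.card V →
  G.edgeFinset.card = 2 * nd G 2 → m22 G = nd G 3 → mhh G = nd G 3 →
  (∀ S ∈ covs G, nd G 2 ≤ S.card) → Str G

end Pool.Agent.X79.EC
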