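import Pool.Agent.X79.EC.Stm

/-!
# The structure of the exceptional graphs
-/

set_option autoImplicit false

namespace Pool.Agent.X79.EC

open Finset

section

variable {V : Type} [Fintype V] [DecidableEq V] {G : SimpleGraph V} [DecidableRel G.Adj]

lemma closed_univ (hG : G.Connected) {D : Finset V} (hD : D.Nonempty)
    (hc : ∀ x ∈ D, ∀ y, G.Adj x y → y ∈ D) (y : V) : y ∈ D := by
  obtain ⟨x, hx⟩ := hD
  obtain ⟨p⟩ := hG.preconnected x y
  induction p with
  | nil => exact hx
  | cons h p ih => exact ih (hc _ hx _ h)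

lemma other {x y : V} (h : G.Adj x y) (hd : G.degree x = 2) :
    ∃ z, z ≠ y ∧ G.Adj x z ∧ ∀ w, G.Adj x w → w = y ∨ w = z := by
  have h1 : ((G.neighborFinset x).erase y).card = 1 := by
    rw [card_erase_of_mem (by rwa [SimpleGraph.mem_neighborFinset]),
      SimpleGraph.card_neighborFinset_eq_degree, hd]
  obtain ⟨z, hz⟩ := card_eq_one.1 h1
  have hm : ∀ w, w ∈ (G.neighborFinset x).erase y ↔ w = z := by
    intro w
    rw [hz, mem_singleton]
  have hz1 := (hm z).2 rfl
  rw [mem_erase, SimpleGraph.mem_neighborFinset] at hz1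
  refine ⟨z, hz1.1, hz1.2, fun w hw => ?_⟩
  by_cases hwy : w = y
  · exact Or.inl hwy
  · exact Or.inr ((hm w).1 (mem_erase.2 ⟨hwy, by rwa [SimpleGraph.mem_neighborFinset]⟩))

lemma others {x y : V} (h : G.Adj x y) (hd : G.degree x = 3) :
    ∃ a b, a ≠ b ∧ a ≠ y ∧ b ≠ y ∧ G.Adj x a ∧ G.Adj x b ∧
      ∀ w, G.Adj x w → w = y ∨ w = a ∨ w = b := by
  have h1 : ((G.neighborFinset x).erase y).card = 2 := by
    rw [card_erase_of_mem (by rwa [SimpleGraph.mem_neighborFinset]),
      SimpleGraph.card_neighborFinset_eq_degree, hd]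
  obtain ⟨a, b, hab, hz⟩ := card_eq_two.1 h1
  have hm : ∀ w, w ∈ (G.neighborFinset x).erase y ↔ w = a ∨ w = b := by
    intro w
    rw [hz, mem_insert, mem_singleton]
  have ha := (hm a).2 (Or.inl rfl)
  have hb := (hm b).2 (Or.inr rfl)
  rw [mem_erase, SimpleGraph.mem_neighborFinset] at ha hb
  refine ⟨a, b, hab, ha.1, hb.1, ha.2, hb.2, fun w hw => ?_⟩
  by_cases hwy : w = y
  · exact Or.inl hwy
  · exact Or.inr ((hm w).1 (mem_erase.2 ⟨hwy, by rwa [SimpleGraph.mem_neighborFinset]⟩))

variable (G) in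
/-- a pendant odd cycle -/
structure Pend (u v : V) (O : Finset V) : Prop where
  adj : G.Adj u v
  dv : 3 ≤ G.degree v
  du : G.degree u = 3
  mu : u ∈ O
  mv : v ∉ O
  two : ∀ x ∈ O, x ≠ u → G.degree x = 2
  cl : ∀ x ∈ O, ∀ y, G.Adj x y → y ∈ O ∨ (x = u ∧ y = v)

lemma Pend.disj (hG : G.Connected) {u v u' v' : V} {O O' : Finset V} (h : Pend G u v O)
    (h' : Pend G u' v' O') (hne : s(u, v) ≠ s(u', v')) (x : V) (hx : x ∈ O) (hx' : x ∈ O') :
    False := by
  have key : ∀ {u v u' v' : V} {O O' : Finset V}, Pend G u v O → Pend G u' v' O' →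
      s(u, v) ≠ s(u', v') → u' ∉ O := by
    intro u v u' v' O O' h h' hne hm
    by_cases huu : u' = u
    · subst huu
      rcases h.cl u' h.mu v' h'.adj with h1 | h1
      · have h2 := h.two v' h1 h'.adj.ne'
        have h3 := h'.dv
        omega
      · exact hne (by rw [h1.2])
    · have h2 := h.two u' hm huu
      have h3 := h'.du
      omega
  have k1 := key h h' hne
  have k2 := key h' h hne.symm
  have hD : (O ∩ O').Nonempty := ⟨x, mem_inter.2 ⟨hx, hx'⟩⟩
  have hc : ∀ y ∈ O ∩ O', ∀ z, G.Adj y z → z ∈ O ∩ O' := by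
    intro y hy z hz
    obtain ⟨hy1, hy2⟩ := mem_inter.1 hy
    refine mem_inter.2 ⟨?_, ?_⟩
    · rcases h.cl y hy1 z hz with h1 | h1
      · exact h1
      · exact absurd (h1.1 ▸ hy2) k2
    · rcases h'.cl y hy2 z hz with h1 | h1
      · exact h1
      · exact absurd (h1.1 ▸ hy1) k1
  exact h.mv (mem_inter.1 (closed_univ hG hD hc v)).1

/-- the two edges at the neighbours of `u` -/
lemma Pend.edges {u v : V} {O : Finset V} (h : Pend G u v O) :
    ∃ a b a' b', a ≠ b ∧ G.Adj u a ∧ G.Adj u b ∧ G.Adj a a' ∧ G.Adj b b' ∧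
      G.degree a = 2 ∧ G.degree b = 2 ∧ G.degree a' = 2 ∧ G.degree b' = 2 ∧
      a ∈ O ∧ b ∈ O ∧ a' ∈ O ∧ b' ∈ O := by
  obtain ⟨a, b, hab, hav, hbv, ha, hb, -⟩ := others h.adj h.du
  have key : ∀ a, a ≠ v → G.Adj u a → ∃ a', G.Adj a a' ∧ G.degree a = 2 ∧ G.degree a' = 2 ∧
      a ∈ O ∧ a' ∈ O := by
    intro a hav ha
    have h1 : a ∈ O := by
      rcases h.cl u h.mu a ha with h1 | h1
      · exact h1
      · exact absurd h1.2 hav
    have h2 := h.two a h1 ha.ne'
    obtain ⟨a', h3, h4, -⟩ := other ha.symm h2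
    have h5 : a' ∈ O := by
      rcases h.cl a h1 a' h4 with h5 | h5
      · exact h5
      · exact absurd h5.1 ha.ne'
    exact ⟨a', h4, h2, h.two a' h5 h3, h1, h5⟩
  obtain ⟨a', h1, h2, h3, h4, h5⟩ := key a hav ha
  obtain ⟨b', g1, g2, g3, g4, g5⟩ := key b hbv hb
  exact ⟨a, b, a', b', hab, ha, hb, h1, g1, h2, g2, h3, g3, h4, g4, h5, g5⟩

/-- step 1: each edge between vertices of degree at least 3 attaches a pendant odd cycle -/
lemma exists_pend (hTB : S_TB) (hG : G.Connected) (h2 : ∀ v, 2 ≤ G.degree v)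
    (hm : G.edgeFinset.card = 2 * nd G 2) (hhh : mhh G = nd G 3)
    (hcov : ∀ S ∈ covs G, nd G 2 ≤ S.card) {u v : V} (huv : G.Adj u v) (hu : 3 ≤ G.degree u)
    (hv : 3 ≤ G.degree v) : ∃ O, Pend G u v O ∨ Pend G v u O := by
  classical
  set G' : SimpleGraph V := G.deleteEdges {s(u, v)} with hG'
  have hadj : ∀ x y, G'.Adj x y ↔ G.Adj x y ∧ s(x, y) ≠ s(u, v) := by
    intro x y
    rw [hG', SimpleGraph.deleteEdges_adj, Set.mem_singleton_iff]
  have hE : G'.edgeFinset = G.edgeFinset.erase s(u, v) := by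
    ext e
    induction e using Sym2.ind with
    | _ x y =>
      rw [SimpleGraph.mem_edgeFinset, SimpleGraph.mem_edgeSet, hadj, mem_erase,
        SimpleGraph.mem_edgeFinset, SimpleGraph.mem_edgeSet]
      tauto
  have hcard : G'.edgeFinset.card = 2 * nd G 2 - 1 := by
    rw [hE, card_erase_of_mem (by rw [SimpleGraph.mem_edgeFinset, SimpleGraph.mem_edgeSet]; exact huv),
      hm]
  have hpos : 0 < nd G 2 := by
    have : 0 < G.edgeFinset.card := card_pos.2 ⟨s(u, v), by
      rw [SimpleGraph.mem_edgeFinset, SimpleGraph.mem_edgeSet]; exact huv⟩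
    omega
  have hne : u ≠ v := huv.ne
  have hdo : ∀ x, x ≠ u → x ≠ v → G'.degree x = G.degree x := by
    intro x hxu hxv
    rw [← SimpleGraph.card_neighborFinset_eq_degree, ← SimpleGraph.card_neighborFinset_eq_degree]
    congr 1
    ext y
    rw [SimpleGraph.mem_neighborFinset, SimpleGraph.mem_neighborFinset, hadj]
    constructor
    · exact fun h => h.1
    · intro h
      refine ⟨h, fun he => ?_⟩
      rw [Sym2.eq_iff] at he
      rcases he with h | h
      · exact hxu h.1
      · exact hxv h.1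
  have hdu : G'.degree u = G.degree u - 1 := by
    rw [← SimpleGraph.card_neighborFinset_eq_degree, ← SimpleGraph.card_neighborFinset_eq_degree,
      ← card_erase_of_mem (s := G.neighborFinset u) (a := v)
        (by rw [SimpleGraph.mem_neighborFinset]; exact huv)]
    congr 1
    ext y
    rw [SimpleGraph.mem_neighborFinset, mem_erase, SimpleGraph.mem_neighborFinset, hadj]
    constructor
    · rintro ⟨h, h'⟩
      exact ⟨fun he => h' (by rw [he]), h⟩
    · rintro ⟨h, h'⟩
      refine ⟨h', fun he => ?_⟩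
      rw [Sym2.eq_iff] at he
      rcases he with h1 | h1
      · exact h h1.2
      · exact hne h1.1
  have hdv : G'.degree v = G.degree v - 1 := by
    rw [← SimpleGraph.card_neighborFinset_eq_degree, ← SimpleGraph.card_neighborFinset_eq_degree,
      ← card_erase_of_mem (s := G.neighborFinset v) (a := u)
        (by rw [SimpleGraph.mem_neighborFinset]; exact huv.symm)]
    congr 1
    ext y
    rw [SimpleGraph.mem_neighborFinset, mem_erase, SimpleGraph.mem_neighborFinset, hadj]
    constructor
    · rintro ⟨h, h'⟩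
      exact ⟨fun he => h' (by rw [he, Sym2.eq_swap]), h⟩
    · rintro ⟨h, h'⟩
      refine ⟨h', fun he => ?_⟩
      rw [Sym2.eq_iff] at he
      rcases he with h1 | h1
      · exact hne h1.1.symm
      · exact h h1.2
  have hd' : ∀ x, 2 ≤ G'.degree x := by
    intro x
    by_cases hxu : x = u
    · rw [hxu, hdu]; omega
    · by_cases hxv : x = v
      · rw [hxv, hdv]; omega
      · rw [hdo x hxu hxv]; exact h2 x
  by_contra hcon
  push Not at hcon
  obtain ⟨S, hS1, hS2, hS3⟩ := hTB V G' hd' (by
    intro O hO hcl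
    by_contra hall
    push Not at hall
    have hOne : O.Nonempty := by
      rw [nonempty_iff_ne_empty]
      rintro rfl
      simp at hO
    have hcl' : ∀ x ∈ O, ∀ y, G.Adj x y → s(x, y) ≠ s(u, v) → y ∈ O := fun x hx y hxy hs =>
      hcl x hx y ((hadj x y).2 ⟨hxy, hs⟩)
    have htwo : ∀ x ∈ O, x ≠ u → x ≠ v → G.degree x = 2 := by
      intro x hx hxu hxv
      rw [← hdo x hxu hxv]
      exact hall x hx
    by_cases hu1 : u ∈ O
    · have e1 : G.degree u = 3 := by
        have := hall u hu1
        omega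
      by_cases hv1 : v ∈ O
      · have e2 : G.degree v = 3 := by
          have := hall v hv1
          omega
        have hall' : ∀ x, x ∈ O := closed_univ hG hOne (by
          intro x hx y hxy
          by_cases hs : s(x, y) = s(u, v)
          · rw [Sym2.eq_iff] at hs
            rcases hs with hs | hs
            · rw [hs.2]; exact hv1
            · rw [hs.2]; exact hu1
          · exact hcl' x hx y hxy hs)
        have c1 : mhh G ≤ 1 := by
          unfold mhh
          rw [card_le_one]
          have key : ∀ e ∈ G.edgeFinset.filter (fun e => ∀ v ∈ e, 3 ≤ G.degree v), e = s(u, v) := by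
            intro e he
            rw [mem_filter, SimpleGraph.mem_edgeFinset] at he
            obtain ⟨he1, he2⟩ := he
            induction e using Sym2.ind with
            | _ x y =>
              rw [SimpleGraph.mem_edgeSet] at he1
              have hx : x = u ∨ x = v := by
                by_contra hh
                push Not at hh
                have := htwo x (hall' x) hh.1 hh.2
                have := he2 x (Sym2.mem_mk_left x y)
                omega
              have hy : y = u ∨ y = v := by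
                by_contra hh
                push Not at hh
                have := htwo y (hall' y) hh.1 hh.2
                have := he2 y (Sym2.mem_mk_right x y)
                omega
              have hxy := he1.ne
              rw [Sym2.eq_iff]
              rcases hx with rfl | rfl <;> rcases hy with rfl | rfl
              · exact absurd rfl hxy
              · exact Or.inl ⟨rfl, rfl⟩
              · exact Or.inr ⟨rfl, rfl⟩
              · exact absurd rfl hxy
          intro e he e' he'
          rw [key e he, key e' he']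
        have c2 : 2 ≤ nd G 3 := by
          unfold nd
          rw [← card_pair hne]
          apply card_le_card
          intro x hx
          rw [mem_insert, mem_singleton] at hx
          rw [mem_filter]
          rcases hx with rfl | rfl
          · exact ⟨mem_univ _, e1⟩
          · exact ⟨mem_univ _, e2⟩
        omega
      · refine (hcon O).1 ⟨huv, hv, e1, hu1, hv1, fun x hx hxu => htwo x hx hxu
          (fun h => hv1 (h ▸ hx)), fun x hx y hxy => ?_⟩
        by_cases hs : s(x, y) = s(u, v)
        · rw [Sym2.eq_iff] at hs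
          rcases hs with hs | hs
          · exact Or.inr hs
          · exact absurd (hs.1 ▸ hx) hv1
        · exact Or.inl (hcl' x hx y hxy hs)
    · by_cases hv1 : v ∈ O
      · have e2 : G.degree v = 3 := by
          have := hall v hv1
          omega
        refine (hcon O).2 ⟨huv.symm, hu, e2, hv1, hu1, fun x hx hxv => htwo x hx
          (fun h => hu1 (h ▸ hx)) hxv, fun x hx y hxy => ?_⟩
        by_cases hs : s(x, y) = s(u, v)
        · rw [Sym2.eq_iff] at hs
          rcases hs with hs | hs
          · exact absurd (hs.1 ▸ hx) hu1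
          · exact Or.inr hs
        · exact Or.inl (hcl' x hx y hxy hs)
      · refine hu1 (closed_univ hG hOne (fun x hx y hxy => hcl' x hx y hxy fun hs => ?_) u)
        rw [Sym2.eq_iff] at hs
        rcases hs with hs | hs
        · exact hu1 (hs.1 ▸ hx)
        · exact hv1 (hs.1 ▸ hx))
  have hS4 : S ∈ covs G := by
    unfold covs
    rw [mem_filter, mem_powerset]
    refine ⟨hS1.trans ?_, hS2⟩
    rw [hE]
    exact erase_subset _ _
  have := hcov S hS4
  rw [hcard] at hS3
  omega

end

/-- the structure of the exceptional graphs -/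
theorem t_STR (hTB : S_TB) : S_STR := by
  intro V _ _ G _ hG h2 hn hm h22 hhh hcov
  classical
  obtain ⟨v₀⟩ := hG.nonempty
  set HH := G.edgeFinset.filter (fun e => ∀ v ∈ e, 3 ≤ G.degree v) with hHH
  set TT := G.edgeFinset.filter (fun e => ∀ v ∈ e, G.degree v = 2) with hTT
  set N3 := univ.filter (fun v : V => G.degree v = 3) with hN3
  have c1 : TT.card = N3.card := h22
  have c2 : HH.card = N3.card := hhh
  -- the pendant cycle of each edge
  have hex : ∀ e ∈ HH, ∃ t : V × V × Finset V, Pend G t.1 t.2.1 t.2.2 ∧ e = s(t.1, t.2.1) := by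
    intro e he
    rw [hHH, mem_filter, SimpleGraph.mem_edgeFinset] at he
    obtain ⟨he1, he2⟩ := he
    induction e using Sym2.ind with
    | _ x y =>
      rw [SimpleGraph.mem_edgeSet] at he1
      obtain ⟨O, hO | hO⟩ := exists_pend hTB hG h2 hm hhh hcov he1
        (he2 x (Sym2.mem_mk_left x y)) (he2 y (Sym2.mem_mk_right x y))
      · exact ⟨(x, y, O), hO, rfl⟩
      · exact ⟨(y, x, O), hO, Sym2.eq_swap⟩
  have : Nonempty (V × V × Finset V) := ⟨(v₀, v₀, ∅)⟩
  choose! T hT using hex
  -- the vertices of degree three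
  have hinj : Set.InjOn (fun e => (T e).1) (HH : Set (Sym2 V)) := by
    intro e he e' he' hee
    simp only at hee
    obtain ⟨h1, h1'⟩ := hT e he
    obtain ⟨h3, h3'⟩ := hT e' he'
    by_contra hne
    have h4 : s((T e).1, (T e).2.1) ≠ s((T e').1, (T e').2.1) := by
      rw [← h1', ← h3']
      exact hne
    exact h1.disj hG h3 h4 (T e).1 h1.mu (by rw [hee]; exact h3.mu)
  have hmaps : Set.MapsTo (fun e => (T e).1) (HH : Set (Sym2 V)) (N3 : Set V) := by
    intro e he
    have := (hT e he).1.du
    simp only [hN3, coe_filter, mem_univ, true_and, Set.mem_setOf_eq]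
    exact this
  have hsurj := surjOn_of_injOn_of_card_le _ hmaps hinj (by rw [c2])
  have hdeg3 : ∀ u, G.degree u = 3 → ∃ e ∈ HH, (T e).1 = u := by
    intro u hu
    have hu' : u ∈ (N3 : Set V) := by
      simp only [hN3, coe_filter, mem_univ, true_and, Set.mem_setOf_eq]
      exact hu
    obtain ⟨e, he, he'⟩ := hsurj hu'
    exact ⟨e, he, he'⟩
  -- the edges between vertices of degree two
  have hz : ∀ e ∈ HH, ∃ z : Sym2 V, z ∈ TT ∧ ∀ x ∈ z, x ∈ (T e).2.2 := by
    intro e he
    obtain ⟨h1, h1'⟩ := hT e he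
    obtain ⟨a, b, a', b', -, -, -, haa, -, da, -, da', -, ma, -, ma', -⟩ := h1.edges
    refine ⟨s(a, a'), ?_, ?_⟩
    · rw [hTT, mem_filter, SimpleGraph.mem_edgeFinset, SimpleGraph.mem_edgeSet]
      refine ⟨haa, fun x hx => ?_⟩
      rw [Sym2.mem_iff] at hx
      rcases hx with rfl | rfl
      · exact da
      · exact da'
    · intro x hx
      rw [Sym2.mem_iff] at hx
      rcases hx with rfl | rfl
      · exact ma
      · exact ma'
  have : Nonempty (Sym2 V) := ⟨s(v₀, v₀)⟩
  choose! f hf using hz
  have hdis : ∀ e ∈ HH, ∀ e' ∈ HH, ∀ x, x ∈ (T e).2.2 → x ∈ (T e').2.2 → e = e' := by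
    intro e he e' he' x hx hx'
    by_contra hne
    obtain ⟨h1, h1'⟩ := hT e he
    obtain ⟨h3, h3'⟩ := hT e' he'
    have h4 : s((T e).1, (T e).2.1) ≠ s((T e').1, (T e').2.1) := by
      rw [← h1', ← h3']
      exact hne
    exact h1.disj hG h3 h4 x hx hx'
  have hmem : ∀ z : Sym2 V, ∃ x, x ∈ z := by
    intro z
    induction z using Sym2.ind with
    | _ x y => exact ⟨x, Sym2.mem_mk_left x y⟩
  have finj : Set.InjOn f (HH : Set (Sym2 V)) := by
    intro e he e' he' hee
    obtain ⟨x, hx⟩ := hmem (f e)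
    exact hdis e he e' he' x ((hf e he).2 x hx) ((hf e' he').2 x (hee ▸ hx))
  have fmaps : Set.MapsTo f (HH : Set (Sym2 V)) (TT : Set (Sym2 V)) := fun e he => (hf e he).1
  have fsurj := surjOn_of_injOn_of_card_le _ fmaps finj (by rw [c1, c2])
  have huniq : ∀ e ∈ HH, ∀ z ∈ TT, (∃ x ∈ z, x ∈ (T e).2.2) → z = f e := by
    intro e he z hz ⟨x, hx, hxe⟩
    obtain ⟨e', he', rfl⟩ := fsurj hz
    have := hdis e he e' he' x hxe ((hf e' he').2 x hx)
    rw [this]
  -- the triangle
  have htri : ∀ e ∈ HH, ∃ a b, a ≠ b ∧ G.Adj (T e).1 a ∧ G.Adj (T e).1 b ∧ G.Adj a b ∧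
      G.degree a = 2 ∧ G.degree b = 2 ∧ f e = s(a, b) := by
    intro e he
    obtain ⟨h1, h1'⟩ := hT e he
    obtain ⟨a, b, a', b', hab, hua, hub, haa, hbb, da, db, da', db', ma, mb, ma', mb'⟩ := h1.edges
    have k1 : s(a, a') = f e := by
      refine huniq e he _ ?_ ⟨a, Sym2.mem_mk_left _ _, ma⟩
      rw [hTT, mem_filter, SimpleGraph.mem_edgeFinset, SimpleGraph.mem_edgeSet]
      refine ⟨haa, fun x hx => ?_⟩
      rw [Sym2.mem_iff] at hx
      rcases hx with rfl | rfl
      · exact da
      · exact da'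
    have k2 : s(b, b') = f e := by
      refine huniq e he _ ?_ ⟨b, Sym2.mem_mk_left _ _, mb⟩
      rw [hTT, mem_filter, SimpleGraph.mem_edgeFinset, SimpleGraph.mem_edgeSet]
      refine ⟨hbb, fun x hx => ?_⟩
      rw [Sym2.mem_iff] at hx
      rcases hx with rfl | rfl
      · exact db
      · exact db'
    have k3 := k1.trans k2.symm
    rw [Sym2.eq_iff] at k3
    rcases k3 with k3 | k3
    · exact absurd k3.1 hab
    · refine ⟨a, b, hab, hua, hub, ?_, da, db, ?_⟩
      · rw [← k3.2]; exact haa
      · rw [← k1, k3.2]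
  have hhigh : ∀ u v, G.Adj u v → 3 ≤ G.degree u → 3 ≤ G.degree v → s(u, v) ∈ HH := by
    intro u v huv hu hv
    rw [hHH, mem_filter, SimpleGraph.mem_edgeFinset, SimpleGraph.mem_edgeSet]
    refine ⟨huv, fun x hx => ?_⟩
    rw [Sym2.mem_iff] at hx
    rcases hx with rfl | rfl
    · exact hu
    · exact hv
  have htri' : ∀ u, G.degree u = 3 → ∃ a b v, a ≠ b ∧ G.Adj u a ∧ G.Adj u b ∧ G.Adj u v ∧
      G.Adj a b ∧ G.degree a = 2 ∧ G.degree b = 2 ∧ 4 ≤ G.degree v := by
    intro u hu
    obtain ⟨e, he, rfl⟩ := hdeg3 u hu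
    obtain ⟨a, b, hab, hua, hub, haab, da, db, -⟩ := htri e he
    obtain ⟨h1, h1'⟩ := hT e he
    refine ⟨a, b, (T e).2.1, hab, hua, hub, h1.adj, haab, da, db, ?_⟩
    by_contra hlt
    have hdv : G.degree (T e).2.1 = 3 := by
      have := h1.dv
      omega
    obtain ⟨e', he', hee'⟩ := hdeg3 _ hdv
    obtain ⟨h3, h3'⟩ := hT e' he'
    -- the neighbour `(T e).1` of `(T e').1` has degree 3
    have k1 : G.Adj (T e').1 (T e).1 := by
      rw [hee']
      exact h1.adj.symm
    have k2 : (T e).1 = (T e').2.1 := by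
      rcases h3.cl _ h3.mu _ k1 with k3 | k3
      · have := h3.two _ k3 k1.ne'
        omega
      · exact k3.2
    have k3 : e = e' := by
      rw [h1', h3', ← k2, hee']
      exact Sym2.eq_swap
    rw [← k3] at hee'
    exact h1.adj.ne hee'
  refine ⟨h2, htri', ?_, ?_, ?_⟩
  · intro a b hab ha hb
    have hz : s(a, b) ∈ TT := by
      rw [hTT, mem_filter, SimpleGraph.mem_edgeFinset, SimpleGraph.mem_edgeSet]
      refine ⟨hab, fun x hx => ?_⟩
      rw [Sym2.mem_iff] at hx
      rcases hx with rfl | rfl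
      · exact ha
      · exact hb
    obtain ⟨e, he, hfe⟩ := fsurj hz
    obtain ⟨a', b', -, hua, hub, -, -, -, hfe'⟩ := htri e he
    rw [hfe, Sym2.eq_iff] at hfe'
    refine ⟨(T e).1, (hT e he).1.du, ?_⟩
    rcases hfe' with h | h
    · rw [h.1, h.2]
      exact ⟨hua, hub⟩
    · rw [h.1, h.2]
      exact ⟨hub, hua⟩
  · intro u v huv hu hv
    obtain ⟨h1, h1'⟩ := hT _ (hhigh u v huv hu hv)
    have := h1.du
    rw [Sym2.eq_iff] at h1'
    rcases h1' with h | h
    · left; rw [h.1]; exact this
    · right; rw [h.2]; exact this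
  · by_contra hno
    push Not at hno
    have h3 : ∀ v, G.degree v ≠ 3 := by
      intro v hv
      obtain ⟨a, b, w, -, -, -, -, -, -, -, hw⟩ := htri' v hv
      have := hno w
      omega
    have hall : ∀ v, G.degree v = 2 := by
      intro v
      have := hno v
      have := h2 v
      have := h3 v
      omega
    have e1 : nd G 2 = Fintype.card V := by
      unfold nd
      rw [filter_true_of_mem (fun v _ => hall v), card_univ]
    have e2 : ∑ v : V, G.degree v = 2 * G.edgeFinset.card := G.sum_degrees_eq_twice_card_edges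
    simp only [hall, sum_const, card_univ, smul_eq_mul] at e2
    omega

end Pool.Agent.X79.EC
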